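import Pool.Agent.Helper12.CH.Tree

set_option autoImplicit false

/-! Prime chains: the infinite chains. -/

open Finset Filter Topology

namespace Pool.Agent.Helper12.CH

open Pool.Agent.H410R2 Pool.Agent.H398R2.BV H343E

/-- the primes of the window `μ` which start chains of every length -/
def Good (c : ℤ) (μ q : ℕ) : Prop := q ∈ Win μ ∧ ∀ N, q ∉ Bad c N μ

theorem bad_mono_step (c : ℤ) (N : ℕ) : ∀ μ, Bad c N μ ⊆ Bad c (N + 1) μ := by
  classical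
  induction N with
  | zero => intro μ; simp [Bad]
  | succ N ih =>
    intro μ q hq
    rw [Bad, mem_filter] at hq ⊢
    exact ⟨hq.1, fun p hp hd => ih (μ + 1) (hq.2 p hp hd)⟩

theorem bad_mono (c : ℤ) (μ : ℕ) {M N : ℕ} (h : M ≤ N) : Bad c M μ ⊆ Bad c N μ := by
  induction N, h using Nat.le_induction with
  | base => exact Subset.rfl
  | succ k hk ih => exact ih.trans (bad_mono_step c k μ)

/-- a finite set all of whose elements are bad for some length is bad for one length -/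
theorem uniform (c : ℤ) (μ : ℕ) (S : Finset ℕ) (h : ∀ p ∈ S, ∃ N, p ∈ Bad c N μ) : ∃ N, S ⊆ Bad c N μ := by
  classical
  choose! f hf using h
  refine ⟨S.sup f, fun p hp => ?_⟩
  exact bad_mono c μ (le_sup hp) (hf p hp)

theorem good_next (c : ℤ) (μ q : ℕ) (h : Good c μ q) : ∃ p, Good c (μ + 1) p ∧ (q : ℤ) ∣ (p : ℤ) - c := by
  classical
  by_contra hcon
  push Not at hcon
  obtain ⟨N, hN⟩ := uniform c (μ + 1) ((Win (μ + 1)).filter (fun p => (q : ℤ) ∣ (p : ℤ) - c)) (by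
    intro p hp
    rw [mem_filter] at hp
    by_contra h2
    push Not at h2
    exact hcon p ⟨hp.1, h2⟩ hp.2)
  refine h.2 (N + 1) ?_
  rw [Bad, mem_filter]
  exact ⟨h.1, fun p hp hd => hN (mem_filter.2 ⟨hp, hd⟩)⟩

theorem exists_chain (c : ℤ) (μ q : ℕ) (h : Good c μ q) : ∃ f : ℕ → ℕ, f 0 = q ∧
    ∀ k, Good c (μ + k) (f k) ∧ (f k : ℤ) ∣ (f (k + 1) : ℤ) - c := by
  classical
  choose! g hg using fun (ν : ℕ) (p : ℕ) (hp : Good c ν p) => good_next c ν p hp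
  let f : ℕ → ℕ := fun k => Nat.rec q (fun k p => g (μ + k) p) k
  have hf0 : f 0 = q := rfl
  have hfs : ∀ k, f (k + 1) = g (μ + k) (f k) := fun k => rfl
  have hgood : ∀ k, Good c (μ + k) (f k) := by
    intro k
    induction k with
    | zero => rw [hf0]; exact h
    | succ k ih => rw [hfs, ← add_assoc]; exact (hg (μ + k) (f k) ih).1
  refine ⟨f, hf0, fun k => ⟨hgood k, ?_⟩⟩
  rw [hfs]
  exact (hg (μ + k) (f k) (hgood k)).2

/-- prime number theorem in the class `c` modulo `r` -/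
theorem psiAP_pnt (c : ℤ) (r : ℕ) (hr : 0 < r) (hc : IsCoprime c (r : ℤ)) : ∃ x₀ : ℝ, ∀ x : ℝ, x₀ ≤ x →
    |psiAP x r (res c r) - x / (Nat.totient r : ℝ)| ≤ 1 / 10 * (x / (Nat.totient r : ℝ)) := by
  haveI : NeZero r := ⟨hr.ne'⟩
  have hφ : (0 : ℝ) < Nat.totient r := by exact_mod_cast Nat.totient_pos.mpr hr
  have hu : IsUnit ((res c r : ℕ) : ZMod r) := (ZMod.isUnit_iff_coprime _ _).2 (res_coprime c r hr hc)
  have h := Pool.Agent.Helper923.PNT.pnt_residueClass hu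
  rw [Metric.tendsto_atTop] at h
  obtain ⟨x₀, h1⟩ := h (1 / 10 * (Nat.totient r : ℝ)⁻¹) (by positivity)
  refine ⟨max x₀ 1, fun x hx => ?_⟩
  have hx0 : 0 < x := lt_of_lt_of_le one_pos ((le_max_right _ _).trans hx)
  have h2 := h1 x ((le_max_left _ _).trans hx)
  rw [Real.dist_eq] at h2
  have h3 : ∑ k ∈ Icc 1 ⌊x⌋₊, ArithmeticFunction.vonMangoldt.residueClass ((res c r : ℕ) : ZMod r) k =
      psiAP x r (res c r) := by
    unfold psiAP
    rw [sum_filter]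
    apply sum_congr rfl
    intro k _
    unfold ArithmeticFunction.vonMangoldt.residueClass
    rw [Set.indicator_apply]
    congr 1
    rw [Set.mem_setOf_eq, ZMod.natCast_eq_natCast_iff]
  rw [h3] at h2
  have h4 : psiAP x r (res c r) - x / (Nat.totient r : ℝ) =
      (psiAP x r (res c r) / x - (Nat.totient r : ℝ)⁻¹) * x := by
    field_simp
  rw [h4, abs_mul, abs_of_pos hx0]
  calc |psiAP x r (res c r) / x - (Nat.totient r : ℝ)⁻¹| * x ≤ (1 / 10 * (Nat.totient r : ℝ)⁻¹) * x :=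
        mul_le_mul_of_nonneg_right h2.le hx0.le
    _ = _ := by field_simp

/-- every residue class is followed by a good prime in every large window -/
theorem start (c : ℤ) (hc0 : c ≠ 0) (r : ℕ) (hr : 0 < r) (hc : IsCoprime c (r : ℤ)) : ∃ μ₁ : ℕ, 14 ≤ μ₁ ∧
    ∀ μ : ℕ, μ₁ ≤ μ → ∃ p, Good c μ p ∧ (r : ℤ) ∣ (p : ℤ) - c := by
  classical
  obtain ⟨μ₀, hμ₀, hbad⟩ := bad_small c hc0
  obtain ⟨x₀, hx₀⟩ := psiAP_pnt c r hr hc
  obtain ⟨k₁, hk₁⟩ := pow_unbounded_of_one_lt x₀ (one_lt_two : (1 : ℝ) < 2)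
  refine ⟨max μ₀ (max k₁ r), hμ₀.trans (le_max_left _ _), fun μ hμ => ?_⟩
  have hμ1 : μ₀ ≤ μ := (le_max_left _ _).trans hμ
  have hμ2 : k₁ ≤ μ := ((le_max_left _ _).trans (le_max_right _ _)).trans hμ
  have hμ3 : r ≤ μ := ((le_max_right _ _).trans (le_max_right _ _)).trans hμ
  have hμ14 : 14 ≤ μ := hμ₀.trans hμ1
  have hφ : (0 : ℝ) < Nat.totient r := by exact_mod_cast Nat.totient_pos.mpr hr
  by_contra hcon
  push Not at hcon
  obtain ⟨N, hN⟩ := uniform c μ ((Win μ).filter (fun p => (r : ℤ) ∣ (p : ℤ) - c)) (by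
    intro p hp
    rw [mem_filter] at hp
    by_contra h2
    push Not at h2
    exact hcon p ⟨hp.1, h2⟩ hp.2)
  have hb := hbad N μ hμ1
  have hng := nn_ge μ hμ14
  have hnp := nn_le_pow μ hμ14
  set n := nn μ with hn
  clear_value n
  have hsub : (PB n r (res c r)) ⊆ Bad c N μ := by
    intro p hp
    apply hN
    unfold PB at hp
    rw [mem_filter, mem_Ioc] at hp
    rw [mem_filter, mem_Win, ← hn]
    exact ⟨⟨hp.1, hp.2.1⟩, (res_modEq c r p hr).1 hp.2.2⟩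
  have hcard : (PB n r (res c r)).card * 2 ^ (μ ^ 2 + 6 * μ) ≤ 2 ^ n :=
    (Nat.mul_le_mul_right _ (card_le_card hsub)).trans hb
  have hcardR : ((PB n r (res c r)).card : ℝ) * 2 ^ (μ ^ 2 + 6 * μ) ≤ 2 ^ n := by exact_mod_cast hcard
  have hμn : μ ≤ n := by nlinarith
  have hrμ : r < 2 ^ μ := hμ3.trans_lt Nat.lt_two_pow_self
  have hφr : (Nat.totient r : ℝ) ≤ 2 ^ μ := by exact_mod_cast (Nat.totient_le r).trans hrμ.le
  have hx1 : x₀ ≤ (2 : ℝ) ^ n := hk₁.le.trans (pow_le_pow_right₀ (by norm_num) (hμ2.trans hμn))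
  have hpos : (0 : ℝ) < 2 ^ n := by positivity
  have a1 := abs_le.1 (hx₀ (2 ^ n) hx1)
  have a2 := abs_le.1 (hx₀ (32 * 2 ^ n) (by linarith))
  have h2 := count_ge n r (res c r)
  have h3 : (32 : ℝ) * 2 ^ n = ((2 ^ (n + 5) : ℕ) : ℝ) := by
    push_cast
    ring
  have h4 : (2 : ℝ) ^ n = ((2 ^ n : ℕ) : ℝ) := by push_cast; ring
  have hlog : Real.log ((2 ^ (n + 5) : ℕ) : ℝ) ≤ 2 ^ μ := by
    push_cast
    rw [Real.log_pow]
    have h7 : Real.log 2 ≤ 1 := by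
      have := Real.log_two_lt_d9
      linarith
    calc ((n + 5 : ℕ) : ℝ) * Real.log 2 ≤ ((n + 5 : ℕ) : ℝ) * 1 := by gcongr
      _ = ((n + 5 : ℕ) : ℝ) := mul_one _
      _ ≤ ((2 ^ μ : ℕ) : ℝ) := by exact_mod_cast (by omega : n + 5 ≤ 2 ^ μ)
      _ = _ := by push_cast; ring
  have hsq : Real.sqrt ((2 ^ (n + 5) : ℕ) : ℝ) ≤ 2 ^ (n / 2 + 3) := by
    rw [Real.sqrt_le_left (by positivity), ← pow_mul]
    push_cast
    exact pow_le_pow_right₀ (by norm_num) (by omega)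
  have hpp : 2 * Real.sqrt ((2 ^ (n + 5) : ℕ) : ℝ) * Real.log ((2 ^ (n + 5) : ℕ) : ℝ) ≤
      2 ^ n / (Nat.totient r : ℝ) := by
    rw [le_div_iff₀ hφ]
    calc 2 * Real.sqrt ((2 ^ (n + 5) : ℕ) : ℝ) * Real.log ((2 ^ (n + 5) : ℕ) : ℝ) * (Nat.totient r : ℝ)
        ≤ 2 ^ 1 * 2 ^ (n / 2 + 3) * 2 ^ μ * 2 ^ μ := by
          rw [pow_one]
          gcongr
      _ = 2 ^ (1 + (n / 2 + 3) + μ + μ) := by rw [← pow_add, ← pow_add, ← pow_add]
      _ ≤ _ := by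
          apply pow_le_pow_right₀ (by norm_num)
          have : 14 * μ ≤ μ ^ 2 := by nlinarith
          omega
  have hn5 : (n : ℝ) + 5 ≤ 2 ^ μ := by
    exact_mod_cast (by omega : n + 5 ≤ 2 ^ μ)
  have hK0 : (0 : ℝ) ≤ ((PB n r (res c r)).card : ℝ) := Nat.cast_nonneg _
  rw [← h3, ← h4] at h2
  rw [← h3] at hpp
  have e0 : (32 * (2 : ℝ) ^ n) / (Nat.totient r : ℝ) = 32 * (2 ^ n / (Nat.totient r : ℝ)) := by ring
  rw [e0] at a2
  have e1 : 5 * (2 ^ n / (Nat.totient r : ℝ)) ≤ 2 ^ μ * ((PB n r (res c r)).card : ℝ) := by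
    have e3 : ((n : ℝ) + 5) * ((PB n r (res c r)).card : ℝ) ≤ 2 ^ μ * ((PB n r (res c r)).card : ℝ) :=
      mul_le_mul_of_nonneg_right hn5 hK0
    have e4 : 0 ≤ (2 : ℝ) ^ n / (Nat.totient r : ℝ) := by positivity
    linarith [a1.2, a2.1]
  have e2 : (2 : ℝ) ^ n / (Nat.totient r : ℝ) * 2 ^ μ ≥ 2 ^ n := by
    rw [ge_iff_le, div_mul_eq_mul_div, le_div_iff₀ hφ]
    gcongr
  have e3 : 5 * (2 : ℝ) ^ n ≤ 2 ^ μ * 2 ^ μ * ((PB n r (res c r)).card : ℝ) := by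
    calc 5 * (2 : ℝ) ^ n ≤ 5 * ((2 : ℝ) ^ n / (Nat.totient r : ℝ) * 2 ^ μ) := by linarith
      _ = 5 * (2 ^ n / (Nat.totient r : ℝ)) * 2 ^ μ := by ring
      _ ≤ 2 ^ μ * ((PB n r (res c r)).card : ℝ) * 2 ^ μ := mul_le_mul_of_nonneg_right e1 (by positivity)
      _ = _ := by ring
  have e4 : (2 : ℝ) ^ μ * 2 ^ μ ≤ 2 ^ (μ ^ 2 + 6 * μ) := by
    rw [← pow_add]
    exact pow_le_pow_right₀ (by norm_num) (by nlinarith)
  have e5 : 5 * (2 : ℝ) ^ n ≤ 2 ^ n := by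
    calc 5 * (2 : ℝ) ^ n ≤ 2 ^ μ * 2 ^ μ * ((PB n r (res c r)).card : ℝ) := e3
      _ ≤ 2 ^ (μ ^ 2 + 6 * μ) * ((PB n r (res c r)).card : ℝ) := mul_le_mul_of_nonneg_right e4 hK0
      _ = ((PB n r (res c r)).card : ℝ) * 2 ^ (μ ^ 2 + 6 * μ) := mul_comm _ _
      _ ≤ 2 ^ n := hcardR
  linarith

end Pool.Agent.Helper12.CH
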