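import Pool.Agent.Helper12.CH.Err
import Pool.Agent.Helper12.CH.Bound

set_option autoImplicit false

/-! Prime chains: primes of a class in the block `(x, 32 x]`. -/

open Finset Filter Topology

namespace Pool.Agent.Helper12.CH

open Pool.Agent.H410R2 Pool.Agent.H398R2.BV H343E

/-- the smoothed error term -/
noncomputable def Er (q a : ℕ) (Y : ℝ) : ℝ := |psiLogAP Y q a - psiLog1 Y / (Nat.totient q : ℝ)|

/-- the sum of the six error terms at `x` -/
noncomputable def Er6 (q a : ℕ) (x : ℝ) : ℝ :=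
  (Er q a (x * Real.exp (1 / 4)) + Er q a x + Er q a (x * Real.exp (-(1 / 4)))) +
  (Er q a (32 * x * Real.exp (1 / 4)) + Er q a (32 * x) + Er q a (32 * x * Real.exp (-(1 / 4))))

theorem exp_quarter : Real.exp (1 / 4) ≤ 13 / 10 := by
  have h1 : Real.exp (1 / 4) ^ 4 = Real.exp 1 := by
    rw [← Real.exp_nat_mul]
    norm_num
  have h2 : Real.exp 1 < 2.7182818286 := Real.exp_one_lt_d9
  by_contra h
  push Not at h
  have h3 : (13 / 10 : ℝ) ^ 4 < Real.exp (1 / 4) ^ 4 := pow_lt_pow_left₀ h (by norm_num) (by norm_num)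
  rw [h1] at h3
  norm_num at h3
  linarith

theorem exp_neg_quarter : 3 / 4 ≤ Real.exp (-(1 / 4)) := by
  have := Real.add_one_le_exp (-(1 / 4) : ℝ)
  linarith

/-- from the six smoothed errors to the primes in the block -/
theorem block_ge (Y₀ : ℝ) (hY : ∀ Y : ℝ, Y₀ ≤ Y → |psi1 Y - Y| ≤ 1 / 100 * Y) (x : ℝ) (hx0 : 0 < x)
    (hx : Y₀ ≤ x * (3 / 4)) (q a : ℕ) (hq : 1 ≤ q) (hE : Er6 q a x ≤ x / (Nat.totient q : ℝ)) :
    6 * (x / (Nat.totient q : ℝ)) ≤ psiAP (32 * x) q a - psiAP x q a := by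
  have hφ : (0 : ℝ) < Nat.totient q := by exact_mod_cast Nat.totient_pos.mpr (by omega)
  have u1 := unsmooth_point (x := x) (η := 1 / 4) hx0 (by norm_num) q a
  have u2 := unsmooth_point (x := 32 * x) (η := 1 / 4) (by linarith) (by norm_num) q a
  have e1 := exp_quarter
  have e2 := exp_neg_quarter
  have e3 : 0 < Real.exp (1 / 4) := Real.exp_pos _
  have e4 : 1 ≤ Real.exp (1 / 4) := Real.one_le_exp (by norm_num)
  have hge : ∀ Y : ℝ, x * (3 / 4) ≤ Y → 99 / 100 * Y ≤ psi1 Y ∧ psi1 Y ≤ 101 / 100 * Y := by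
    intro Y hYx
    have := abs_le.1 (hY Y (hx.trans hYx))
    constructor <;> linarith [this.1, this.2]
  have p1 := hge x (by linarith)
  have p2 := hge (x * Real.exp (1 / 4)) (by nlinarith)
  have p3 := hge (x * Real.exp (-(1 / 4))) (by nlinarith)
  have p4 := hge (32 * x) (by linarith)
  have p5 := hge (32 * x * Real.exp (1 / 4)) (by nlinarith)
  have p6 := hge (32 * x * Real.exp (-(1 / 4))) (by nlinarith)
  unfold Er6 Er at hE
  have a1 := abs_le.1 u1
  have a2 := abs_le.1 u2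
  have b1 : x * Real.exp (1 / 4) ≤ 13 / 10 * x := by nlinarith
  have b2 : 3 / 4 * x ≤ x * Real.exp (-(1 / 4)) := by nlinarith
  set F := (Nat.totient q : ℝ) with hF
  have c1 : psiAP x q a ≤ psi1 x / F + (1 / (1 / 4)) * (|psiLogAP (x * Real.exp (1 / 4)) q a -
        psiLog1 (x * Real.exp (1 / 4)) / F| + |psiLogAP x q a - psiLog1 x / F| +
        |psiLogAP (x * Real.exp (-(1 / 4))) q a - psiLog1 (x * Real.exp (-(1 / 4))) / F|) +
      (psi1 (x * Real.exp (1 / 4)) - psi1 (x * Real.exp (-(1 / 4)))) / F := by linarith [a1.2]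
  have c2 : psi1 (32 * x) / F - (1 / (1 / 4)) * (|psiLogAP (32 * x * Real.exp (1 / 4)) q a -
        psiLog1 (32 * x * Real.exp (1 / 4)) / F| + |psiLogAP (32 * x) q a - psiLog1 (32 * x) / F| +
        |psiLogAP (32 * x * Real.exp (-(1 / 4))) q a - psiLog1 (32 * x * Real.exp (-(1 / 4))) / F|) -
      (psi1 (32 * x * Real.exp (1 / 4)) - psi1 (32 * x * Real.exp (-(1 / 4)))) / F ≤
      psiAP (32 * x) q a := by linarith [a2.1]
  have d1 : psi1 x / F ≤ 101 / 100 * (x / F) := by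
    rw [← mul_div_assoc]
    exact div_le_div_of_nonneg_right p1.2 hφ.le
  have d2 : 99 / 100 * 32 * (x / F) ≤ psi1 (32 * x) / F := by
    rw [← mul_div_assoc]
    apply div_le_div_of_nonneg_right _ hφ.le
    linarith [p4.1]
  have d3 : (psi1 (x * Real.exp (1 / 4)) - psi1 (x * Real.exp (-(1 / 4)))) / F ≤
      (101 / 100 * (13 / 10) - 99 / 100 * (3 / 4)) * (x / F) := by
    rw [← mul_div_assoc]
    apply div_le_div_of_nonneg_right _ hφ.le
    linarith [p2.2, p3.1]
  have d4 : (psi1 (32 * x * Real.exp (1 / 4)) - psi1 (32 * x * Real.exp (-(1 / 4)))) / F ≤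
      32 * (101 / 100 * (13 / 10) - 99 / 100 * (3 / 4)) * (x / F) := by
    rw [← mul_div_assoc]
    apply div_le_div_of_nonneg_right _ hφ.le
    linarith [p5.2, p6.1]
  have hxF : 0 ≤ x / F := by positivity
  norm_num at c1 c2 d1 d2 d3 d4 hE ⊢
  linarith

/-- the primes `p ≡ a (mod q)` in `(2 ^ n, 2 ^ (n + 5)]` -/
def PB (n q a : ℕ) : Finset ℕ := (Ioc (2 ^ n) (2 ^ (n + 5))).filter (fun p => p.Prime ∧ p ≡ a [MOD q])

theorem count_ge (n q a : ℕ) :
    psiAP ((2 ^ (n + 5) : ℕ) : ℝ) q a - psiAP ((2 ^ n : ℕ) : ℝ) q a ≤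
      (n + 5) * ((PB n q a).card : ℝ) +
        2 * Real.sqrt ((2 ^ (n + 5) : ℕ) : ℝ) * Real.log ((2 ^ (n + 5) : ℕ) : ℝ) := by
  unfold psiAP
  rw [Nat.floor_natCast, Nat.floor_natCast]
  have hle : 2 ^ n ≤ 2 ^ (n + 5) := Nat.pow_le_pow_right (by norm_num) (by omega)
  have h1n : 1 ≤ 2 ^ n := Nat.one_le_two_pow
  have hsplit : (Icc 1 (2 ^ (n + 5))).filter (fun k => k ≡ a [MOD q]) =
      (Icc 1 (2 ^ n)).filter (fun k => k ≡ a [MOD q]) ∪
      (Ioc (2 ^ n) (2 ^ (n + 5))).filter (fun k => k ≡ a [MOD q]) := by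
    ext k
    simp only [mem_filter, mem_union, mem_Icc, mem_Ioc]
    constructor
    · rintro ⟨⟨h1, h2⟩, h3⟩
      by_cases h4 : k ≤ 2 ^ n
      · exact Or.inl ⟨⟨h1, h4⟩, h3⟩
      · exact Or.inr ⟨⟨by omega, h2⟩, h3⟩
    · rintro (⟨⟨h1, h2⟩, h3⟩ | ⟨⟨h1, h2⟩, h3⟩)
      · exact ⟨⟨h1, by omega⟩, h3⟩
      · exact ⟨⟨by omega, h2⟩, h3⟩
  have hdisj : Disjoint ((Icc 1 (2 ^ n)).filter (fun k => k ≡ a [MOD q]))
      ((Ioc (2 ^ n) (2 ^ (n + 5))).filter (fun k => k ≡ a [MOD q])) := by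
    rw [Finset.disjoint_left]
    intro k h1 h2
    simp only [mem_filter, mem_Icc, mem_Ioc] at h1 h2
    omega
  rw [hsplit, sum_union hdisj, add_sub_cancel_left,
    ← sum_filter_add_sum_filter_not _ (fun k : ℕ => k.Prime)]
  apply add_le_add
  · rw [filter_filter]
    have hEq : (Ioc (2 ^ n) (2 ^ (n + 5))).filter (fun k => k ≡ a [MOD q] ∧ k.Prime) = PB n q a := by
      unfold PB
      apply filter_congr
      intro k _
      exact and_comm
    rw [hEq]
    calc ∑ k ∈ PB n q a, ArithmeticFunction.vonMangoldt k ≤ ∑ _k ∈ PB n q a, ((n : ℝ) + 5) := by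
          apply sum_le_sum
          intro k hk
          unfold PB at hk
          rw [mem_filter, mem_Ioc] at hk
          rw [ArithmeticFunction.vonMangoldt_apply_prime hk.2.1]
          calc Real.log k ≤ Real.log ((2 : ℝ) ^ (n + 5)) := by
                apply Real.log_le_log (by exact_mod_cast hk.2.1.pos)
                exact_mod_cast hk.1.2
            _ = ((n + 5 : ℕ) : ℝ) * Real.log 2 := by rw [Real.log_pow]
            _ ≤ ((n + 5 : ℕ) : ℝ) * 1 := by
                have := Real.log_two_lt_d9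
                gcongr
                linarith
            _ = _ := by push_cast; ring
      _ = _ := by rw [sum_const, nsmul_eq_mul]; ring
  · have h2 := Chebyshev.psi_sub_theta_le (x := ((2 ^ (n + 5) : ℕ) : ℝ)) (by exact_mod_cast Nat.one_le_two_pow)
    rw [Chebyshev.psi_sub_theta_eq_sum_not_prime, Nat.floor_natCast] at h2
    refine le_trans ?_ h2
    apply sum_le_sum_of_subset_of_nonneg
    · intro k hk
      simp only [mem_filter, mem_Ioc] at hk ⊢
      exact ⟨⟨by omega, hk.1.1.2⟩, hk.2⟩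
    · intro k _ _
      exact ArithmeticFunction.vonMangoldt_nonneg

end Pool.Agent.Helper12.CH
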