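import Pool.Agent.H343R2.EH.BVLog
import Pool.Agent.H343R2.EH.Unsmooth
import Pool.Agent.H398R2.BA2
import Pool.Agent.Helper923.PNT

set_option autoImplicit false

/-! Prime chains: the mean error over PRIME moduli (no small conductors, so a saving beyond powers of the logarithm), and
the lower bound for the primes in a class. -/

open Finset Filter Topology

namespace Pool.Agent.Helper12.CH

open Pool.Agent.H410R2 Pool.Agent.H398R2.BV H343E

/-- the mean error over prime moduli `G ≤ q ≤ F` -/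
theorem sum_err (X : ℝ) (hX : 1 ≤ X) (W G F : ℕ) (hW : 1 ≤ W) (hG : 2 ≤ G) (hF : 1 ≤ F) (a : ℕ → ℕ)
    (P : Finset ℕ) (hP : ∀ q ∈ P, q.Prime ∧ G ≤ q ∧ q ≤ F ∧ (a q).Coprime q) :
    ∑ q ∈ P, |psiLogAP X q (a q) - psiLog1 X / (Nat.totient q : ℝ)| ≤
      8 * W ^ 2 * F ^ 2 * Real.log X ^ 2 +
      12 * (1 + Real.log F) * (Real.sqrt X / (G : ℝ) +
        (Real.sqrt (X / W) + Real.sqrt (X / W)) + F) * (Real.sqrt X * (1 + Real.log X) ^ 3) *
          Real.log X + 2 * F * Real.log X ^ 2 := by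
  have h1 : ∀ q ∈ P, |psiLogAP X q (a q) - psiLog1 X / (Nat.totient q : ℝ)| ≤
      (1 / (Nat.totient q : ℝ)) * ∑ ψ ∈ Prim q, ‖psiLog X q ψ‖ + 2 * Real.log X ^ 2 := by
    intro q hq
    obtain ⟨hp, -, -, hc⟩ := hP q hq
    have h2 := disc_le X hX q (a q) hp.one_lt.le hc
    have h3 : q.divisors.filter (fun f => f ≠ 1) = {q} := by
      rw [hp.divisors]
      ext f
      simp only [mem_filter, mem_insert, mem_singleton]
      constructor
      · rintro ⟨h4 | h4, h5⟩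
        · exact absurd h4 h5
        · exact h4
      · rintro rfl
        exact ⟨Or.inr rfl, hp.one_lt.ne'⟩
    rw [h3, sum_singleton, hp.primeFactors, card_singleton, Nat.cast_one, one_mul] at h2
    exact h2
  have hsub : P ⊆ Icc G F := by
    intro q hq
    rw [mem_Icc]
    exact ⟨(hP q hq).2.1, (hP q hq).2.2.1⟩
  have hcard : (P.card : ℝ) ≤ F := by
    have h2 : P.card ≤ (Icc G F).card := card_le_card hsub
    rw [Nat.card_Icc] at h2
    exact_mod_cast (by omega : P.card ≤ F)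
  calc ∑ q ∈ P, |psiLogAP X q (a q) - psiLog1 X / (Nat.totient q : ℝ)|
      ≤ ∑ q ∈ P, ((1 / (Nat.totient q : ℝ)) * ∑ ψ ∈ Prim q, ‖psiLog X q ψ‖ + 2 * Real.log X ^ 2) :=
        sum_le_sum h1
    _ = ∑ q ∈ P, (1 / (Nat.totient q : ℝ)) * ∑ ψ ∈ Prim q, ‖psiLog X q ψ‖ +
          P.card * (2 * Real.log X ^ 2) := by rw [sum_add_distrib, sum_const, nsmul_eq_mul]
    _ ≤ ∑ q ∈ Icc G F, (1 / (Nat.totient q : ℝ)) * ∑ ψ ∈ Prim q, ‖psiLog X q ψ‖ +
          F * (2 * Real.log X ^ 2) := by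
        gcongr
    _ ≤ _ := by
        have h4 := BVL.large X hX W G F hW hG hF
        have h5 : (F : ℝ) * (2 * Real.log X ^ 2) = 2 * F * Real.log X ^ 2 := by ring
        rw [h5]
        linarith

theorem psi1_eq_psi (x : ℝ) : psi1 x = Chebyshev.psi x := by
  unfold psi1 Chebyshev.psi
  rfl

/-- prime number theorem for `psi1` -/
theorem psi1_pnt (η : ℝ) (hη : 0 < η) : ∃ Y₀ : ℝ, 1 ≤ Y₀ ∧ ∀ Y : ℝ, Y₀ ≤ Y → |psi1 Y - Y| ≤ η * Y := by
  have h := Pool.Agent.Helper923.PNT.psi_div_tendsto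
  rw [Metric.tendsto_atTop] at h
  obtain ⟨Y₀, h1⟩ := h η hη
  refine ⟨max Y₀ 1, le_max_right _ _, fun Y hY => ?_⟩
  have hY0 : 0 < Y := lt_of_lt_of_le one_pos ((le_max_right _ _).trans hY)
  have h2 := h1 Y ((le_max_left _ _).trans hY)
  rw [Real.dist_eq] at h2
  have h3 : psi1 Y - Y = (Chebyshev.psi Y / Y - 1) * Y := by
    rw [psi1_eq_psi]
    field_simp
  rw [h3, abs_mul, abs_of_pos hY0]
  exact mul_le_mul_of_nonneg_right h2.le hY0.le

end Pool.Agent.Helper12.CH
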