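import Pool.Agent.Helper12.CH.Chain

set_option autoImplicit false

/-! Prime chains: the final theorem for the classes `c` modulo the preceding prime. -/

open Finset Filter Topology

namespace Pool.Agent.Helper12.CH

theorem le_two_pow' (μ : ℕ) (hμ : 14 ≤ μ) : 2 * (16 * μ ^ 2 + 32 * μ + 64) ≤ 2 ^ μ := by
  induction μ, hμ using Nat.le_induction with
  | base => norm_num
  | succ k hk ih =>
    rw [pow_succ 2 k]
    nlinarith

theorem nn_half (μ : ℕ) (hμ : 14 ≤ μ) : 2 ^ μ ≤ 2 * nn μ := by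
  have h1 := nn_add μ hμ
  have h2 := le_two_pow' μ hμ
  omega

theorem loglog_ge (μ n q : ℕ) (hμ : 14 ≤ μ) (hh : (2 : ℝ) ^ μ ≤ 2 * n) (h1 : (2 : ℝ) ^ n ≤ q) :
    (μ : ℝ) ^ 2 / 9 ≤ (Real.log (Real.log q)) ^ 2 := by
  have hμR : (14 : ℝ) ≤ μ := by exact_mod_cast hμ
  have hl2 : 1 / 2 ≤ Real.log 2 := by
    have := Real.log_two_gt_d9
    linarith
  obtain ⟨k, rfl⟩ : ∃ k, μ = k + 2 := ⟨μ - 2, by omega⟩
  have h2 : (2 : ℝ) ^ k ≤ Real.log q := by
    have h3 : (n : ℝ) * Real.log 2 ≤ Real.log q := by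
      rw [← Real.log_pow]
      exact Real.log_le_log (by positivity) h1
    have h5 : (2 : ℝ) ^ (k + 2) = 4 * 2 ^ k := by
      rw [pow_add]
      ring
    rw [h5] at hh
    have h6 : (0 : ℝ) ≤ n := Nat.cast_nonneg n
    have h7 : (n : ℝ) * (1 / 2) ≤ n * Real.log 2 := mul_le_mul_of_nonneg_left hl2 h6
    linarith
  have hk : (12 : ℝ) ≤ k := by
    push_cast at hμR
    linarith
  have h3 : (k : ℝ) / 2 ≤ Real.log (Real.log q) := by
    have h4 : (k : ℝ) * Real.log 2 ≤ Real.log (Real.log q) := by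
      rw [← Real.log_pow]
      exact Real.log_le_log (by positivity) h2
    have h6 : (k : ℝ) * (1 / 2) ≤ k * Real.log 2 := mul_le_mul_of_nonneg_left hl2 (by linarith)
    linarith
  push_cast
  have h5 : ((k : ℝ) + 2) / 3 ≤ Real.log (Real.log q) := by linarith
  have h6 : 0 ≤ ((k : ℝ) + 2) / 3 := by positivity
  calc ((k : ℝ) + 2) ^ 2 / 9 = (((k : ℝ) + 2) / 3) ^ 2 := by ring
    _ ≤ _ := pow_le_pow_left₀ h6 h5 2

theorem growth (μ q p : ℕ) (hμ : 14 ≤ μ) (hq : q ∈ Win μ) (hp : p ∈ Win (μ + 1)) :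
    (p : ℝ) ≤ (q : ℝ) ^ 2 * Real.exp (160 * (Real.log (Real.log q)) ^ 2) := by
  obtain ⟨⟨hq1, -⟩, -⟩ := mem_Win.1 hq
  obtain ⟨⟨-, hp2⟩, -⟩ := mem_Win.1 hp
  have hh : (2 : ℝ) ^ μ ≤ 2 * (nn μ : ℕ) := by exact_mod_cast nn_half μ hμ
  have h1 : (2 : ℝ) ^ nn μ ≤ q := by exact_mod_cast hq1.le
  have h4 := loglog_ge μ (nn μ) q hμ hh h1
  have hl2' : Real.log 2 ≤ 1 := by
    have := Real.log_two_lt_d9
    linarith
  have hμR : (14 : ℝ) ≤ μ := by exact_mod_cast hμ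
  have h5 : (2 : ℝ) ^ (16 * μ ^ 2 + 21) ≤ Real.exp (160 * (Real.log (Real.log q)) ^ 2) := by
    rw [← Real.log_le_iff_le_exp (by positivity), Real.log_pow]
    have h6 : (((16 * μ ^ 2 + 21 : ℕ)) : ℝ) * Real.log 2 ≤ ((16 * μ ^ 2 + 21 : ℕ) : ℝ) * 1 :=
      mul_le_mul_of_nonneg_left hl2' (Nat.cast_nonneg _)
    refine h6.trans ?_
    push_cast
    have h7 : (21 : ℝ) ≤ (μ : ℝ) ^ 2 := by nlinarith
    linarith
  have h6 : (2 : ℝ) ^ (nn (μ + 1) + 5) = (2 ^ nn μ) ^ 2 * 2 ^ (16 * μ ^ 2 + 21) := by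
    rw [nn_succ μ hμ, ← pow_mul, ← pow_add]
    congr 1
    ring
  calc (p : ℝ) ≤ 2 ^ (nn (μ + 1) + 5) := by exact_mod_cast hp2
    _ = (2 ^ nn μ) ^ 2 * 2 ^ (16 * μ ^ 2 + 21) := h6
    _ ≤ (q : ℝ) ^ 2 * Real.exp (160 * (Real.log (Real.log q)) ^ 2) :=
        mul_le_mul (pow_le_pow_left₀ (by positivity) h1 2) h5 (by positivity) (by positivity)

/-- For every integer `c ≠ 0` and every `r ≥ 1` prime to `c` there is an infinite chain `r = f 0 < f 1 < f 2 < …`, `f i` prime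
for `i ≥ 1`, `f (i + 1) ≡ c (mod f i)`, of the growth `log f k = O(2 ^ k)`. -/
theorem chain_from (c : ℤ) (hc0 : c ≠ 0) (r : ℕ) (hr : 0 < r) (hc : IsCoprime c (r : ℤ)) :
    ∃ f : ℕ → ℕ, f 0 = r ∧ StrictMono f ∧ (∀ i, (f (i + 1)).Prime) ∧ (∀ i, (f i : ℤ) ∣ (f (i + 1) : ℤ) - c) ∧
      (∀ i, 1 ≤ i → (f (i + 1) : ℝ) ≤ (f i : ℝ) ^ 2 * Real.exp (160 * (Real.log (Real.log (f i))) ^ 2)) ∧
      ∃ C : ℝ, ∀ k, (f k : ℝ) ≤ Real.exp (C * 2 ^ k) := by
  obtain ⟨μ₁, hμ₁, hst⟩ := start c hc0 r hr hc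
  set μ := max μ₁ r with hμ
  have hμ14 : 14 ≤ μ := hμ₁.trans (le_max_left _ _)
  obtain ⟨p, hp, hpr⟩ := hst μ (le_max_left _ _)
  obtain ⟨g, hg0, hg⟩ := exists_chain c μ p hp
  have hrμ : r ≤ μ := le_max_right _ _
  clear_value μ
  have hW : ∀ k, g k ∈ Win (μ + k) := fun k => (hg k).1.1
  have hlow : ∀ k, 2 ^ nn (μ + k) < g k := fun k => (mem_Win.1 (hW k)).1.1
  have hup : ∀ k, g k ≤ 2 ^ (2 ^ (μ + k)) := by
    intro k
    have h1 := nn_le_pow (μ + k) (by omega)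
    exact (mem_Win.1 (hW k)).1.2.trans (Nat.pow_le_pow_right (by norm_num) (by omega))
  have hr0 : r < g 0 := by
    have h1 := hlow 0
    rw [add_zero] at h1
    have h2 := nn_ge μ hμ14
    have h3 : μ ≤ nn μ := by nlinarith
    calc r ≤ μ := hrμ
      _ < 2 ^ μ := Nat.lt_two_pow_self
      _ ≤ 2 ^ nn μ := Nat.pow_le_pow_right (by norm_num) h3
      _ < g 0 := h1
  have hgs : ∀ k, g k < g (k + 1) := by
    intro k
    have h1 := (mem_Win.1 (hW k)).1.2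
    have h2 := hlow (k + 1)
    have h3 := nn_lt_succ (μ + k) (by omega)
    calc g k ≤ 2 ^ (nn (μ + k) + 5) := h1
      _ ≤ 2 ^ nn (μ + (k + 1)) := Nat.pow_le_pow_right (by norm_num) (by rw [← add_assoc]; omega)
      _ < g (k + 1) := h2
  let f : ℕ → ℕ := fun k => match k with
    | 0 => r
    | k + 1 => g k
  have hf0 : f 0 = r := rfl
  have hfs : ∀ k, f (k + 1) = g k := fun k => rfl
  refine ⟨f, hf0, ?_, ?_, ?_, ?_, ?_⟩
  · apply strictMono_nat_of_lt_succ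
    intro k
    cases k with
    | zero => rw [hf0, hfs]; exact hr0
    | succ k => rw [hfs, hfs]; exact hgs k
  · intro i
    rw [hfs]
    exact (mem_Win.1 (hW i)).2
  · intro i
    cases i with
    | zero => rw [hf0, hfs, hg0]; exact hpr
    | succ i => rw [hfs, hfs]; exact (hg i).2
  · intro i hi
    obtain ⟨k, rfl⟩ : ∃ k, i = k + 1 := ⟨i - 1, by omega⟩
    rw [hfs, hfs]
    exact growth (μ + k) (g k) (g (k + 1)) (by omega) (hW k) (by have := hW (k + 1); rwa [← add_assoc] at this)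
  · refine ⟨Real.log 2 * 2 ^ μ, fun k => ?_⟩
    have key : ∀ k, (f k : ℝ) ≤ 2 ^ (2 ^ (μ + k)) := by
      intro k
      cases k with
      | zero =>
        rw [hf0]
        have h1 : r ≤ 2 ^ (2 ^ (μ + 0)) := hr0.le.trans (hup 0)
        exact_mod_cast h1
      | succ k =>
        rw [hfs]
        have h1 : g k ≤ 2 ^ (2 ^ (μ + (k + 1))) := (hup k).trans
          (Nat.pow_le_pow_right (by norm_num) (Nat.pow_le_pow_right (by norm_num) (by omega)))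
        exact_mod_cast h1
    refine (key k).trans (le_of_eq ?_)
    have h2 : ((2 ^ (μ + k) : ℕ) : ℝ) * Real.log 2 = Real.log 2 * 2 ^ μ * 2 ^ k := by
      push_cast
      rw [pow_add]
      ring
    rw [← h2, Real.exp_nat_mul, Real.exp_log (by norm_num)]

end Pool.Agent.Helper12.CH
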