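import Pool.Agent.Helper12.CH.Count

set_option autoImplicit false

/-! Prime chains: almost all primes of a window start a chain through all the following windows. -/

open Finset Filter Topology

namespace Pool.Agent.Helper12.CH

open Pool.Agent.H410R2 Pool.Agent.H398R2.BV H343E

/-- the primes of the window at the scale `μ` -/
def Win (μ : ℕ) : Finset ℕ := (Ioc (2 ^ nn μ) (2 ^ (nn μ + 5))).filter Nat.Prime

theorem mem_Win {μ q : ℕ} : q ∈ Win μ ↔ (2 ^ nn μ < q ∧ q ≤ 2 ^ (nn μ + 5)) ∧ q.Prime := by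
  unfold Win
  rw [mem_filter, mem_Ioc]

open Classical in
/-- the primes of the window which do not start a chain of length `N` -/
noncomputable def Bad (c : ℤ) : ℕ → ℕ → Finset ℕ
  | 0, _ => ∅
  | N + 1, μ => (Win μ).filter (fun q => ∀ p ∈ Win (μ + 1), (q : ℤ) ∣ (p : ℤ) - c → p ∈ Bad c N (μ + 1))

/-- the residue class as a natural number -/
def res (c : ℤ) (q : ℕ) : ℕ := (c % (q : ℤ)).toNat

theorem res_cast (c : ℤ) (q : ℕ) (hq : 0 < q) : ((res c q : ℕ) : ℤ) = c % (q : ℤ) := by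
  unfold res
  exact Int.toNat_of_nonneg (Int.emod_nonneg _ (by exact_mod_cast hq.ne'))

theorem res_modEq (c : ℤ) (q p : ℕ) (hq : 0 < q) : p ≡ res c q [MOD q] ↔ (q : ℤ) ∣ (p : ℤ) - c := by
  rw [← Int.natCast_modEq_iff, res_cast c q hq]
  constructor
  · intro h
    have h1 : (p : ℤ) ≡ c [ZMOD q] := h.trans (Int.mod_modEq c q)
    exact (Int.modEq_iff_dvd.1 h1.symm)
  · intro h
    exact ((Int.modEq_iff_dvd.2 h).symm).trans (Int.mod_modEq c q).symm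

theorem res_coprime (c : ℤ) (q : ℕ) (hq : 0 < q) (hc : IsCoprime c (q : ℤ)) : (res c q).Coprime q := by
  rw [← Nat.isCoprime_iff_coprime, res_cast c q hq, Int.emod_def]
  have h1 : c - (q : ℤ) * (c / (q : ℤ)) = c + (q : ℤ) * (-(c / (q : ℤ))) := by ring
  rw [h1]
  exact IsCoprime.add_mul_left_left hc _

theorem isCoprime_of_lt (c : ℤ) (hc : c ≠ 0) (q : ℕ) (hq : q.Prime) (h : c.natAbs < q) : IsCoprime c (q : ℤ) := by
  rw [Int.isCoprime_iff_nat_coprime, Int.natAbs_natCast]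
  exact ((Nat.Prime.coprime_iff_not_dvd hq).2
    (fun hd => absurd (Nat.le_of_dvd (Int.natAbs_pos.2 hc) hd) (by omega))).symm

theorem two_pow_card_primeFactors_le (m : ℕ) (hm : m ≠ 0) : 2 ^ m.primeFactors.card ≤ m := by
  calc 2 ^ m.primeFactors.card ≤ ∏ p ∈ m.primeFactors, p := by
        apply Finset.pow_card_le_prod
        intro p hp
        exact (Nat.prime_of_mem_primeFactors hp).two_le
    _ ≤ m := Nat.le_of_dvd (Nat.pos_of_ne_zero hm) (Nat.prod_primeFactors_dvd m)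

/-- step 1: a prime `q` with small errors has many followers in the next window -/
theorem many_followers (Y₀ : ℝ) (hY : ∀ Y : ℝ, Y₀ ≤ Y → |psi1 Y - Y| ≤ 1 / 100 * Y) (c : ℤ) (μ : ℕ) (hμ : 14 ≤ μ)
    (hμY : Y₀ ≤ 2 ^ μ) (q : ℕ) (hq : q ∈ Win μ)
    (hE : Er6 q (res c q) (2 ^ nn (μ + 1)) ≤ 2 ^ nn (μ + 1) / (Nat.totient q : ℝ)) :
    2 ^ (nn μ + 16 * μ ^ 2 + 12) ≤ 2 ^ μ * (PB (nn (μ + 1)) q (res c q)).card := by
  obtain ⟨⟨hq1, hq2⟩, hqp⟩ := mem_Win.1 hq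
  have hn' := nn_succ μ hμ
  have hng := nn_ge μ hμ
  have hnp := nn_le_pow (μ + 1) (by omega)
  set n := nn μ with hn
  set n' := nn (μ + 1) with hn1
  clear_value n n'
  have hμn : μ + 1 ≤ n' := by nlinarith
  have hx : Y₀ ≤ (2 : ℝ) ^ n' * (3 / 4) := by
    have h1 : (2 : ℝ) ^ (μ + 1) ≤ 2 ^ n' := pow_le_pow_right₀ (by norm_num) hμn
    have h2 : (2 : ℝ) ^ (μ + 1) = 2 * 2 ^ μ := by ring
    have h3 : (0 : ℝ) < 2 ^ μ := by positivity
    linarith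
  have h1 := block_ge Y₀ hY (2 ^ n') (by positivity) hx q (res c q) hqp.one_lt.le hE
  have h2 := count_ge n' q (res c q)
  have h3 : (32 : ℝ) * 2 ^ n' = ((2 ^ (n' + 5) : ℕ) : ℝ) := by
    push_cast
    ring
  have h4 : (2 : ℝ) ^ n' = ((2 ^ n' : ℕ) : ℝ) := by push_cast; ring
  rw [h3, h4] at h1
  have h5 : ((2 ^ n' : ℕ) : ℝ) / (Nat.totient q : ℝ) ≥ 2 ^ (n + 16 * μ ^ 2 + 11) := by
    have hφ : (0 : ℝ) < Nat.totient q := by exact_mod_cast Nat.totient_pos.mpr hqp.pos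
    rw [ge_iff_le, le_div_iff₀ hφ]
    have h6 : (Nat.totient q : ℝ) ≤ 2 ^ (n + 5) := by
      exact_mod_cast (Nat.totient_le q).trans hq2
    calc (2 : ℝ) ^ (n + 16 * μ ^ 2 + 11) * (Nat.totient q : ℝ) ≤ 2 ^ (n + 16 * μ ^ 2 + 11) * 2 ^ (n + 5) := by
          gcongr
      _ = ((2 ^ n' : ℕ) : ℝ) := by
          push_cast
          rw [← pow_add]
          congr 1
          omega
  -- the prime powers
  have hlog : Real.log ((2 ^ (n' + 5) : ℕ) : ℝ) ≤ 2 ^ (μ + 1) := by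
    push_cast
    rw [Real.log_pow]
    have h7 : Real.log 2 ≤ 1 := by
      have := Real.log_two_lt_d9
      linarith
    calc ((n' + 5 : ℕ) : ℝ) * Real.log 2 ≤ ((n' + 5 : ℕ) : ℝ) * 1 := by gcongr
      _ = ((n' + 5 : ℕ) : ℝ) := mul_one _
      _ ≤ ((2 ^ (μ + 1) : ℕ) : ℝ) := by exact_mod_cast (by omega : n' + 5 ≤ 2 ^ (μ + 1))
      _ = _ := by push_cast; ring
  have hsq : Real.sqrt ((2 ^ (n' + 5) : ℕ) : ℝ) ≤ 2 ^ (n + 8 * μ ^ 2 + 11) := by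
    rw [Real.sqrt_le_left (by positivity), ← pow_mul]
    push_cast
    exact pow_le_pow_right₀ (by norm_num) (by omega)
  have hpp : 2 * Real.sqrt ((2 ^ (n' + 5) : ℕ) : ℝ) * Real.log ((2 ^ (n' + 5) : ℕ) : ℝ) ≤
      2 ^ (n + 16 * μ ^ 2 + 11) := by
    calc 2 * Real.sqrt ((2 ^ (n' + 5) : ℕ) : ℝ) * Real.log ((2 ^ (n' + 5) : ℕ) : ℝ)
        ≤ 2 ^ 1 * 2 ^ (n + 8 * μ ^ 2 + 11) * 2 ^ (μ + 1) := by
          rw [pow_one]
          gcongr
      _ = 2 ^ (1 + (n + 8 * μ ^ 2 + 11) + (μ + 1)) := by rw [← pow_add, ← pow_add]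
      _ ≤ _ := by
          apply pow_le_pow_right₀ (by norm_num)
          nlinarith
  have hn5 : (n' : ℝ) + 5 ≤ 2 ^ (μ + 1) := by
    exact_mod_cast (by omega : n' + 5 ≤ 2 ^ (μ + 1))
  have hcard : (0 : ℝ) ≤ ((PB n' q (res c q)).card : ℝ) := Nat.cast_nonneg _
  have hfin : (2 : ℝ) ^ (n + 16 * μ ^ 2 + 12) ≤ 2 ^ μ * ((PB n' q (res c q)).card : ℝ) := by
    have e1 : (2 : ℝ) ^ (n + 16 * μ ^ 2 + 12) = 2 * 2 ^ (n + 16 * μ ^ 2 + 11) := pow_succ' 2 (n + 16 * μ ^ 2 + 11)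
    have e2 : (2 : ℝ) ^ (μ + 1) = 2 * 2 ^ μ := pow_succ' 2 μ
    have e3 : ((n' : ℝ) + 5) * ((PB n' q (res c q)).card : ℝ) ≤ 2 ^ (μ + 1) * ((PB n' q (res c q)).card : ℝ) :=
      mul_le_mul_of_nonneg_right hn5 hcard
    rw [e2] at e3
    rw [e1]
    generalize (2 : ℝ) ^ (n + 16 * μ ^ 2 + 11) = A at *
    generalize ((PB n' q (res c q)).card : ℝ) = K at *
    generalize (2 : ℝ) ^ μ = M at *
    have e4 : 2 * M * K = 2 * (M * K) := by ring
    rw [e4] at e3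
    have e5 : 6 * A ≤ (↑n' + 5) * K + A := by
      calc 6 * A ≤ 6 * (((2 ^ n' : ℕ) : ℝ) / (Nat.totient q : ℝ)) := mul_le_mul_of_nonneg_left h5 (by norm_num)
        _ ≤ _ := h1
        _ ≤ _ := h2
        _ ≤ _ := add_le_add le_rfl hpp
    clear h1 h2 h5 hpp h3 h4 hlog hsq hx hE
    have e6 : 0 ≤ A := by
      have : (0 : ℝ) < 2 ^ (n + 16 * μ ^ 2 + 12) := by positivity
      linarith
    linarith
  exact_mod_cast hfin

/-- step 2: few primes of the window have large errors -/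
theorem few_large_errors (c : ℤ) (hc : c ≠ 0) (μ : ℕ) (hμ : 14 ≤ μ) (hμc : c.natAbs ≤ 2 ^ μ) (S : Finset ℕ)
    (hS : ∀ q ∈ S, q ∈ Win μ ∧ ¬ Er6 q (res c q) (2 ^ nn (μ + 1)) ≤ 2 ^ nn (μ + 1) / (Nat.totient q : ℝ)) :
    S.card * 2 ^ (μ ^ 2 + 6 * μ + 2) ≤ 2 ^ nn μ := by
  have hn' := nn_succ μ hμ
  have hng := nn_ge μ hμ
  have hnp := nn_le_pow (μ + 1) (by omega)
  set n := nn μ with hn
  set n' := nn (μ + 1) with hn1
  clear_value n n'
  have hμn : μ ≤ n := by nlinarith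
  have hP : ∀ q ∈ S, q.Prime ∧ 2 ^ n ≤ q ∧ q ≤ 2 ^ (n + 5) ∧ (res c q).Coprime q := by
    intro q hq
    obtain ⟨⟨hq1, hq2⟩, hqp⟩ := mem_Win.1 (hS q hq).1
    rw [← hn] at hq1 hq2
    refine ⟨hqp, hq1.le, hq2, res_coprime c q hqp.pos (isCoprime_of_lt c hc q hqp ?_)⟩
    calc c.natAbs ≤ 2 ^ μ := hμc
      _ ≤ 2 ^ n := Nat.pow_le_pow_right (by norm_num) hμn
      _ < q := hq1
  have key : ∀ X : ℝ, 1 ≤ X → X ≤ 2 ^ (2 * n + 16 * μ ^ 2 + 22) →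
      (∑ q ∈ S, Er q (res c q) X) * 2 ^ (6 * μ) ≤ 2 ^ (2 * n + 15 * μ ^ 2 + 2) := by
    intro X hX1 hX
    refine le_trans ?_ (bound_le n μ X hμ hng (by omega) hX1 hX)
    apply mul_le_mul_of_nonneg_right _ (by positivity)
    have := sum_err X hX1 (2 ^ (4 * μ ^ 2)) (2 ^ n) (2 ^ (n + 5)) Nat.one_le_two_pow
      (by
        calc 2 = 2 ^ 1 := rfl
          _ ≤ 2 ^ n := Nat.pow_le_pow_right (by norm_num) (by omega)) Nat.one_le_two_pow (res c) S hP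
    exact this
  have e1 := exp_quarter
  have e2 := exp_neg_quarter
  have e4 : 1 ≤ Real.exp (1 / 4) := Real.one_le_exp (by norm_num)
  have e5 : Real.exp (-(1 / 4)) ≤ 1 := by
    rw [Real.exp_le_one_iff]
    norm_num
  have hx2 : (2 : ℝ) ≤ 2 ^ n' := by
    calc (2 : ℝ) = 2 ^ 1 := (pow_one _).symm
      _ ≤ 2 ^ n' := pow_le_pow_right₀ (by norm_num) (by omega)
  have hxM : (64 : ℝ) * 2 ^ n' = 2 ^ (2 * n + 16 * μ ^ 2 + 22) := by
    rw [hn']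
    rw [show 2 * n + 16 * μ ^ 2 + 22 = (2 * n + 16 * μ ^ 2 + 16) + 6 from by ring, pow_add _ _ 6]
    ring
  set x : ℝ := 2 ^ n' with hx
  have hsum : (∑ q ∈ S, Er6 q (res c q) x) * 2 ^ (6 * μ) ≤ 8 * 2 ^ (2 * n + 15 * μ ^ 2 + 2) := by
    unfold Er6
    simp only [sum_add_distrib]
    have k1 := key (x * Real.exp (1 / 4)) (by nlinarith) (by nlinarith)
    have k2 := key x (by linarith) (by linarith)
    have k3 := key (x * Real.exp (-(1 / 4))) (by nlinarith) (by nlinarith)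
    have k4 := key (32 * x * Real.exp (1 / 4)) (by nlinarith) (by nlinarith)
    have k5 := key (32 * x) (by linarith) (by linarith)
    have k6 := key (32 * x * Real.exp (-(1 / 4))) (by nlinarith) (by nlinarith)
    have h0 : (0 : ℝ) ≤ 2 ^ (2 * n + 15 * μ ^ 2 + 2) := by positivity
    rw [add_mul, add_mul, add_mul, add_mul, add_mul]
    generalize (2 : ℝ) ^ (2 * n + 15 * μ ^ 2 + 2) = A at *
    linarith
  have hlow : (S.card : ℝ) * (x / 2 ^ (n + 5)) ≤ ∑ q ∈ S, Er6 q (res c q) x := by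
    rw [← nsmul_eq_mul]
    apply card_nsmul_le_sum
    intro q hq
    obtain ⟨h1, h2⟩ := hS q hq
    obtain ⟨⟨hq1, hq2⟩, hqp⟩ := mem_Win.1 h1
    rw [← hn] at hq1 hq2
    push Not at h2
    refine le_trans ?_ h2.le
    have hφ : (0 : ℝ) < Nat.totient q := by exact_mod_cast Nat.totient_pos.mpr hqp.pos
    apply div_le_div_of_nonneg_left (by positivity) hφ
    exact_mod_cast (Nat.totient_le q).trans hq2
  have hfin : (S.card : ℝ) * 2 ^ (μ ^ 2 + 6 * μ + 2) ≤ 2 ^ n := by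
    have h1 : (S.card : ℝ) * (x / 2 ^ (n + 5)) * 2 ^ (6 * μ) ≤ 8 * 2 ^ (2 * n + 15 * μ ^ 2 + 2) :=
      (mul_le_mul_of_nonneg_right hlow (by positivity)).trans hsum
    have h2 : x / 2 ^ (n + 5) = 2 ^ (n + 16 * μ ^ 2 + 11) := by
      rw [div_eq_iff (by positivity), hx, ← pow_add]
      congr 1
      omega
    rw [h2] at h1
    have h3 : (S.card : ℝ) * 2 ^ (n + 16 * μ ^ 2 + 11) * 2 ^ (6 * μ) =
        ((S.card : ℝ) * 2 ^ (μ ^ 2 + 6 * μ + 2)) * 2 ^ (n + 15 * μ ^ 2 + 9) := by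
      rw [mul_assoc, mul_assoc, ← pow_add, ← pow_add]
      congr 2
      ring
    have h4 : (8 : ℝ) * 2 ^ (2 * n + 15 * μ ^ 2 + 2) = 2 ^ (n + 15 * μ ^ 2 + 5) * 2 ^ n := by
      rw [show (8 : ℝ) = 2 ^ 3 from by norm_num, ← pow_add, ← pow_add]
      congr 1
      ring
    have h5 : (2 : ℝ) ^ (n + 15 * μ ^ 2 + 5) ≤ 2 ^ (n + 15 * μ ^ 2 + 9) :=
      pow_le_pow_right₀ (by norm_num) (by omega)
    rw [h3, h4] at h1
    have h6 : ((S.card : ℝ) * 2 ^ (μ ^ 2 + 6 * μ + 2)) * 2 ^ (n + 15 * μ ^ 2 + 9) ≤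
        2 ^ n * 2 ^ (n + 15 * μ ^ 2 + 9) := by
      refine h1.trans ?_
      rw [mul_comm]
      gcongr
    exact le_of_mul_le_mul_right h6 (by positivity)
  exact_mod_cast hfin

/-- step 3: double counting -/
theorem few_without_followers (c : ℤ) (μ : ℕ) (hμ : 14 ≤ μ) (hcW : c.natAbs < 2 ^ nn μ)
    (S T : Finset ℕ) (hS : ∀ q ∈ S, q ∈ Win μ ∧
      2 ^ (nn μ + 16 * μ ^ 2 + 12) ≤ 2 ^ μ * (PB (nn (μ + 1)) q (res c q)).card ∧
      ∀ p ∈ Win (μ + 1), (q : ℤ) ∣ (p : ℤ) - c → p ∈ T)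
    (hTW : ∀ p ∈ T, p ∈ Win (μ + 1)) (hT : T.card * 2 ^ ((μ + 1) ^ 2 + 6 * (μ + 1)) ≤ 2 ^ nn (μ + 1)) :
    S.card * 2 ^ (μ ^ 2 + 6 * μ + 2) ≤ 2 ^ nn μ := by
  classical
  have hn' := nn_succ μ hμ
  have hng := nn_ge μ hμ
  have hnp := nn_le_pow (μ + 1) (by omega)
  have hnl := nn_lt_succ μ hμ
  set n := nn μ with hn
  set n' := nn (μ + 1) with hn1
  clear_value n n'
  have hcW' : c.natAbs < 2 ^ n' := hcW.trans_le (Nat.pow_le_pow_right (by norm_num) (by omega))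
  -- the pairs
  have h1 : S.card * 2 ^ (n + 16 * μ ^ 2 + 12) ≤ 2 ^ μ * ∑ q ∈ S, (PB n' q (res c q)).card := by
    rw [mul_sum, ← smul_eq_mul]
    exact card_nsmul_le_sum _ _ _ fun q hq => (hS q hq).2.1
  have h2 : ∑ q ∈ S, (PB n' q (res c q)).card ≤ ∑ q ∈ S, ∑ p ∈ T, if (q : ℤ) ∣ (p : ℤ) - c then 1 else 0 := by
    apply sum_le_sum
    intro q hq
    rw [← card_filter]
    apply card_le_card
    intro p hp
    unfold PB at hp
    rw [mem_filter, mem_Ioc] at hp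
    obtain ⟨⟨hq1, hq2⟩, hqp⟩ := mem_Win.1 (hS q hq).1
    have h3 := (res_modEq c q p hqp.pos).1 hp.2.2
    rw [mem_filter]
    exact ⟨(hS q hq).2.2 p (mem_Win.2 ⟨hn1 ▸ hp.1, hp.2.1⟩) h3, h3⟩
  have h3 : ∑ q ∈ S, ∑ p ∈ T, (if (q : ℤ) ∣ (p : ℤ) - c then 1 else 0) ≤ T.card * 2 ^ (μ + 1) := by
    rw [sum_comm, ← smul_eq_mul]
    apply sum_le_card_nsmul
    intro p hp
    rw [← card_filter]
    obtain ⟨⟨hp1, hp2⟩, hpp⟩ := mem_Win.1 (hTW p hp)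
    rw [← hn1] at hp1 hp2
    have hne : (p : ℤ) - c ≠ 0 := by
      intro h0
      have : (p : ℤ) = c := by linarith
      have h4 : p = c.natAbs := by rw [← this, Int.natAbs_natCast]
      omega
    have hne' : ((p : ℤ) - c).natAbs ≠ 0 := Int.natAbs_ne_zero.2 hne
    have hsub : S.filter (fun q : ℕ => (q : ℤ) ∣ (p : ℤ) - c) ⊆ ((p : ℤ) - c).natAbs.primeFactors := by
      intro q hq
      rw [mem_filter] at hq
      rw [Nat.mem_primeFactors]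
      exact ⟨(mem_Win.1 (hS q hq.1).1).2, Int.natCast_dvd.1 hq.2, hne'⟩
    have h5 : ((p : ℤ) - c).natAbs ≤ 2 ^ (n' + 6) := by
      have h6 : ((p : ℤ) - c).natAbs ≤ p + c.natAbs := by
        have := Int.natAbs_sub_le (p : ℤ) c
        rwa [Int.natAbs_natCast] at this
      have h7 : 2 ^ (n' + 6) = 2 ^ (n' + 5) + 2 ^ (n' + 5) := by ring
      have h8 : 2 ^ n' ≤ 2 ^ (n' + 5) := Nat.pow_le_pow_right (by norm_num) (by omega)
      have hp2' : p ≤ 2 ^ (n' + 5) := hp2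
      omega
    have h9 := two_pow_card_primeFactors_le _ hne'
    have h10 : ((p : ℤ) - c).natAbs.primeFactors.card ≤ n' + 6 := by
      have := h9.trans h5
      exact (Nat.pow_le_pow_iff_right (by norm_num)).1 this
    exact (card_le_card hsub).trans (h10.trans (by omega))
  have h4 : S.card * 2 ^ (n + 16 * μ ^ 2 + 12) ≤ 2 ^ μ * (T.card * 2 ^ (μ + 1)) :=
    h1.trans (Nat.mul_le_mul_left _ (h2.trans h3))
  have h5 : (S.card * 2 ^ (μ ^ 2 + 6 * μ + 2)) * 2 ^ (n + 16 * μ ^ 2 + 2 * μ + 17) ≤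
      2 ^ n * 2 ^ (n + 16 * μ ^ 2 + 2 * μ + 17) := by
    calc (S.card * 2 ^ (μ ^ 2 + 6 * μ + 2)) * 2 ^ (n + 16 * μ ^ 2 + 2 * μ + 17)
        = (S.card * 2 ^ (n + 16 * μ ^ 2 + 12)) * 2 ^ ((μ + 1) ^ 2 + 6 * (μ + 1)) := by
          rw [mul_assoc, mul_assoc, ← pow_add, ← pow_add]
          congr 2
          ring
      _ ≤ (2 ^ μ * (T.card * 2 ^ (μ + 1))) * 2 ^ ((μ + 1) ^ 2 + 6 * (μ + 1)) := Nat.mul_le_mul_right _ h4
      _ = 2 ^ (2 * μ + 1) * (T.card * 2 ^ ((μ + 1) ^ 2 + 6 * (μ + 1))) := by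
          rw [show 2 * μ + 1 = μ + (μ + 1) from by ring, pow_add 2 μ (μ + 1)]
          ring
      _ ≤ 2 ^ (2 * μ + 1) * 2 ^ n' := Nat.mul_le_mul_left _ hT
      _ = 2 ^ n * 2 ^ (n + 16 * μ ^ 2 + 2 * μ + 17) := by
          rw [← pow_add, ← pow_add]
          congr 1
          omega
  exact Nat.le_of_mul_le_mul_right h5 (by positivity)

/-- almost all primes of a window start chains of every length -/
theorem bad_small (c : ℤ) (hc : c ≠ 0) : ∃ μ₀ : ℕ, 14 ≤ μ₀ ∧ ∀ N μ : ℕ, μ₀ ≤ μ →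
    (Bad c N μ).card * 2 ^ (μ ^ 2 + 6 * μ) ≤ 2 ^ nn μ := by
  classical
  obtain ⟨Y₀, -, hY⟩ := psi1_pnt (1 / 100) (by norm_num)
  obtain ⟨k₁, hk₁⟩ := pow_unbounded_of_one_lt Y₀ (one_lt_two : (1 : ℝ) < 2)
  refine ⟨max 14 (max k₁ c.natAbs), le_max_left _ _, ?_⟩
  intro N
  induction N with
  | zero =>
    intro μ _
    simp [Bad]
  | succ N ih =>
    intro μ hμ
    have hμ14 : 14 ≤ μ := (le_max_left _ _).trans hμ
    have hμ1 : k₁ ≤ μ := ((le_max_left _ _).trans (le_max_right _ _)).trans hμ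
    have hμ2 : c.natAbs ≤ μ := ((le_max_right _ _).trans (le_max_right _ _)).trans hμ
    have hμY : Y₀ ≤ (2 : ℝ) ^ μ := hk₁.le.trans (pow_le_pow_right₀ (by norm_num) hμ1)
    have hμ3 : μ < 2 ^ μ := Nat.lt_two_pow_self
    have hng := nn_ge μ hμ14
    have hμn : μ ≤ nn μ := by nlinarith
    have hμc : c.natAbs ≤ 2 ^ μ := by omega
    have hcW : c.natAbs < 2 ^ nn μ := lt_of_lt_of_le (by omega : c.natAbs < 2 ^ μ)
      (Nat.pow_le_pow_right (by norm_num) hμn)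
    set S₁ := (Bad c (N + 1) μ).filter (fun q => ¬ Er6 q (res c q) (2 ^ nn (μ + 1)) ≤
      2 ^ nn (μ + 1) / (Nat.totient q : ℝ)) with hS₁
    set S₂ := (Bad c (N + 1) μ).filter (fun q => ¬ ¬ Er6 q (res c q) (2 ^ nn (μ + 1)) ≤
      2 ^ nn (μ + 1) / (Nat.totient q : ℝ)) with hS₂
    have hcard : (Bad c (N + 1) μ).card = S₁.card + S₂.card := by
      rw [hS₁, hS₂, card_filter_add_card_filter_not]
    have hmem : ∀ q ∈ Bad c (N + 1) μ, q ∈ Win μ ∧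
        ∀ p ∈ Win (μ + 1), (q : ℤ) ∣ (p : ℤ) - c → p ∈ Bad c N (μ + 1) := by
      intro q hq
      rw [Bad, mem_filter] at hq
      exact hq
    have hBW : ∀ M ν : ℕ, ∀ p ∈ Bad c M ν, p ∈ Win ν := by
      intro M ν p hp
      cases M with
      | zero => simp [Bad] at hp
      | succ M =>
        rw [Bad, mem_filter] at hp
        exact hp.1
    have h1 : S₁.card * 2 ^ (μ ^ 2 + 6 * μ + 2) ≤ 2 ^ nn μ := by
      apply few_large_errors c hc μ hμ14 hμc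
      intro q hq
      rw [hS₁, mem_filter] at hq
      exact ⟨(hmem q hq.1).1, hq.2⟩
    have h2 : S₂.card * 2 ^ (μ ^ 2 + 6 * μ + 2) ≤ 2 ^ nn μ := by
      apply few_without_followers c μ hμ14 hcW S₂ (Bad c N (μ + 1)) _ (hBW N (μ + 1)) (ih (μ + 1) (by omega))
      intro q hq
      rw [hS₂, mem_filter, not_not] at hq
      exact ⟨(hmem q hq.1).1, many_followers Y₀ hY c μ hμ14 hμY q (hmem q hq.1).1 hq.2, (hmem q hq.1).2⟩
    have h3 : (Bad c (N + 1) μ).card * 2 ^ (μ ^ 2 + 6 * μ) * 4 ≤ 2 ^ nn μ * 2 := by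
      rw [hcard]
      calc (S₁.card + S₂.card) * 2 ^ (μ ^ 2 + 6 * μ) * 4
          = S₁.card * 2 ^ (μ ^ 2 + 6 * μ + 2) + S₂.card * 2 ^ (μ ^ 2 + 6 * μ + 2) := by
            rw [pow_add 2 (μ ^ 2 + 6 * μ) 2]
            ring
        _ ≤ 2 ^ nn μ + 2 ^ nn μ := add_le_add h1 h2
        _ = 2 ^ nn μ * 2 := by ring
    omega

end Pool.Agent.Helper12.CH
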